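import Pool.Agent.H.MP_1cd8c4_pr.A

/-! Two branching random walks on the line with the same asymptotic shape and no coexistence. -/

open Filter MeasureTheory ProbabilityTheory Set Pointwise

namespace Pool.Agent.Results.MP_1cd8c4_pr.NoCo

/-- displacement from the starting site of the particle with ancestry word `w` (newest letter
first); `X w` is its step away from its parent -/
def pos {d : ℕ} (X : List (Fin d) → ℤ) : List (Fin d) → ℤ
  | [] => 0
  | c :: v => pos X v + X (c :: v)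

/-- union of the unit cells around the sites visited by time `n` -/
def Dbar {d : ℕ} (X : List (Fin d) → ℤ) (n : ℕ) : Set ℝ :=
  ⋃ x ∈ {x : ℤ | ∃ w, w.length ≤ n ∧ pos X w = x}, Ioc (x - 1 / 2 : ℝ) (x + 1 / 2)

/-- `A` is the asymptotic shape -/
def Shape {d : ℕ} (X : List (Fin d) → ℤ) (A : Set ℝ) : Prop :=
  ∀ ε ∈ Ioo (0 : ℝ) 1, ∀ᶠ n : ℕ in atTop,
    (1 - ε) • A ⊆ (n : ℝ)⁻¹ • Dbar X n ∧ (n : ℝ)⁻¹ • Dbar X n ⊆ (1 + ε) • A

theorem result {Ω : Type} [MeasurableSpace Ω] (P : Measure Ω) [IsProbabilityMeasure P]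
    (Z : List (Fin 2) ⊕ List (Fin 3) → Ω → ℤ) (hm : ∀ i, Measurable (Z i)) (hi : iIndepFun Z P)
    (h1 : ∀ i, P.real {ω | Z i ω = 1} = 1 / 2) (h2 : ∀ i, P.real {ω | Z i ω = -1} = 1 / 2) :
    ∀ᵐ ω ∂P, Shape (fun w => Z (.inl w) ω) (Icc (-1) 1) ∧ Shape (fun w => Z (.inr w) ω) (Icc (-1) 1) ∧
      {x : ℤ | ∃ w, pos (fun w => Z (.inl w) ω) w = x ∧
        ∀ v, 1 + pos (fun w => Z (.inr w) ω) v = x → w.length ≤ v.length}.Finite := by
  have e : @pos = @H.MP_1cd8c4_pr.pos := by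
    funext d X w
    induction w with
    | nil => rfl
    | cons c v ih => simp only [pos, H.MP_1cd8c4_pr.pos, ih]
  unfold Shape Dbar
  rw [e]
  exact H.MP_1cd8c4_pr.main hm hi h1 h2

end Pool.Agent.Results.MP_1cd8c4_pr.NoCo
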